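import Pool.Agent.H65.NV.PTargets

/-! Row P_NFD of the board nvk_modules: few discriminants are not fundamental. -/

set_option autoImplicit false

open MeasureTheory Set Filter NumberField NumberField.InfinitePlace
open Pool.Agent.H65.CM4 Pool.Agent.H61.NVK Pool.Agent.H89.NV Pool.Agent.H65.NV
open scoped Real

namespace Pool.Agent.H78.NVP_NFD

variable (k : Type) [Field k] [NumberField k] [IsTotallyReal k]

theorem nm_mul' (k : Type) [Field k] [NumberField k] (I J : Ideal (𝓞 k)) :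
    nm (I * J) = nm I * nm J := by
  unfold nm
  rw [map_mul]
  push_cast
  rfl

theorem dis_mem {k : Type} [Field k] [NumberField k] (J : Ideal (𝓞 k)) (D : 𝓞 k)
    (h : Dis J D) : D ∈ J ^ 2 := by
  obtain ⟨b, hb, hbD⟩ := h
  have h1 : b ^ 2 + D ∈ J ^ 2 := Ideal.mul_le_right hbD
  have h2 : b ^ 2 ∈ J ^ 2 := Ideal.pow_mem_pow hb 2
  have h3 : D = (b ^ 2 + D) - b ^ 2 := by ring
  rw [h3]
  exact sub_mem h1 h2

theorem pf_NFD (hLCU : T_LCU k) (hPSQ : T_PSQ k) (hGDB : T_GDB k) (hEMS : T_EMS k)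
    (hEMB : T_EMB k) : Pool.Agent.H89.NV.T_NFD k := by
  classical
  intro f G η ε hf hG hε
  have hη : 0 < η := hG.pos
  obtain ⟨⟨C1, hC1⟩, -⟩ := hGDB G η hG
  have hC10 : 0 ≤ C1 := (abs_nonneg _).trans (hC1 0)
  obtain ⟨hcard, hn, -, -, -, -, -, -, -, -, hnm1, -⟩ := hEMB
  obtain ⟨-, hem0, -, -, -, -, -, hnmle, -⟩ := hEMS
  obtain ⟨n, hndef⟩ : ∃ n, n = dg k := ⟨_, rfl⟩
  rw [← hndef] at hn hcard
  obtain ⟨K0, hK0def⟩ : ∃ K0, K0 = (4 / η) ^ n := ⟨_, rfl⟩
  have hK0 : 0 < K0 := by rw [hK0def]; positivity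
  have hε' : 0 < ε / (C1 * K0 + 1) := by positivity
  obtain ⟨R₀, hR₀⟩ := hPSQ.2.2 _ hε'
  refine ⟨R₀, fun R hR T hT => ?_⟩
  rw [← hndef]
  have hT0 : 0 < T := by linarith
  obtain ⟨B, hBdef⟩ : ∃ B, B = T / η := ⟨_, rfl⟩
  have hB : 0 < B := by rw [hBdef]; positivity
  have hfin := (hLCU ⊤ 0 B top_ne_bot hB.le).1
  obtain ⟨s, hs⟩ : ∃ s, s = hfin.toFinset := ⟨_, rfl⟩
  have hmem : ∀ x, x ∈ s ↔ ∀ v, |em x v| ≤ B := by
    intro x
    rw [hs, Set.Finite.mem_toFinset]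
    constructor
    · intro h v
      have := h.2 v
      rwa [Pi.zero_apply, sub_zero] at this
    · intro h
      refine ⟨trivial, fun v => ?_⟩
      rw [Pi.zero_apply, sub_zero]
      exact h v
  -- the discriminants which count
  have hbox : ∀ D : 𝓞 k, G (fun v => em D v / T) ≠ 0 → ∀ v, η ≤ em D v / T ∧ em D v / T ≤ 1 / η := by
    intro D hD v
    by_contra hcon
    apply hD
    exact hG.supp _ ⟨v, fun h => hcon h⟩
  have hin : ∀ D : 𝓞 k, G (fun v => em D v / T) ≠ 0 → D ∈ s := by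
    intro D hD
    rw [hmem]
    intro v
    obtain ⟨h1, h2⟩ := hbox D hD v
    have h3 : 0 < em D v := by
      have : 0 < em D v / T := lt_of_lt_of_le hη h1
      exact (div_pos_iff_of_pos_right hT0).1 this
    rw [abs_of_pos h3, hBdef]
    rw [div_le_iff₀ hT0] at h2
    calc em D v ≤ 1 / η * T := h2
      _ = T / η := by ring
  have hne0 : ∀ D : 𝓞 k, G (fun v => em D v / T) ≠ 0 → D ≠ 0 := by
    intro D hD h0
    obtain ⟨v⟩ : Nonempty (Pl k) := inferInstance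
    have h1 := (hbox D hD v).1
    rw [h0, hem0, Pi.zero_apply, zero_div] at h1
    linarith
  rw [tsum_eq_sum (s := s) (fun D hD => by
    by_cases h0 : G (fun v => em D v / T) = 0
    · rw [h0, abs_zero, ite_self]
    · exact absurd (hin D h0) hD)]
  obtain ⟨s1, hs1⟩ : ∃ s1 : Finset (𝓞 k), s1 = s.filter (fun D =>
    (good f (PM k R) D ∧ ¬ Fnd f D) ∧ G (fun v => em D v / T) ≠ 0) := ⟨_, rfl⟩
  have hmem1 : ∀ D, D ∈ s1 ↔ D ∈ s ∧
      (good f (PM k R) D ∧ ¬ Fnd f D) ∧ G (fun v => em D v / T) ≠ 0 := by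
    intro D
    rw [hs1, Finset.mem_filter]
  have hsum : ∑ D ∈ s, (if good f (PM k R) D ∧ ¬ Fnd f D then |G (fun v => em D v / T)| else 0) ≤
      C1 * s1.card := by
    have h1 : ∀ D ∈ s, (if good f (PM k R) D ∧ ¬ Fnd f D then
        |G (fun v => em D v / T)| else 0) ≤ if D ∈ s1 then C1 else 0 := by
      intro D hD
      by_cases h2 : good f (PM k R) D ∧ ¬ Fnd f D
      · rw [if_pos h2]
        by_cases h3 : G (fun v => em D v / T) = 0
        · rw [h3, abs_zero]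
          split_ifs
          · exact hC10
          · exact le_rfl
        · rw [if_pos ((hmem1 D).2 ⟨hD, h2, h3⟩)]
          exact hC1 _
      · rw [if_neg h2]
        split_ifs
        · exact hC10
        · exact le_rfl
    refine (Finset.sum_le_sum h1).trans (le_of_eq ?_)
    have h2 : s.filter (fun D => D ∈ s1) = s1 := by
      ext D
      rw [Finset.mem_filter, hmem1]
      tauto
    rw [← Finset.sum_filter, h2, Finset.sum_const, nsmul_eq_mul, mul_comm]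
  refine hsum.trans ?_
  rcases s1.eq_empty_or_nonempty with hemp | hnonemp
  · rw [hemp, Finset.card_empty, Nat.cast_zero, mul_zero]
    positivity
  -- the primes
  have hex : ∀ D ∈ s1, ∃ P : PrI k, P ∉ PM k R ∧ Dis (P.1 * f) D := by
    intro D hD
    obtain ⟨-, ⟨⟨h1, h2⟩, h3⟩, -⟩ := (hmem1 D).1 hD
    by_contra hcon
    push Not at hcon
    apply h3
    refine ⟨h1, fun P hP => ?_⟩
    by_cases hPR : P ∈ PM k R
    · exact h2 P hPR hP
    · exact hcon P hPR hP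
  obtain ⟨D0, hD0⟩ := hnonemp
  obtain ⟨P0, -, -⟩ := hex D0 hD0
  have hinh : Nonempty (PrI k) := ⟨P0⟩
  choose! Pc hPc1 hPc2 using hex
  have hcnt : (s1.card : ℝ) ≤ ∑ P ∈ s1.image Pc, K0 * T ^ n * (np P ^ 2)⁻¹ := by
    have h1 := Finset.card_eq_sum_card_fiberwise (f := Pc) (s := s1) (t := s1.image Pc)
      (fun D hD => Finset.mem_coe.2 (Finset.mem_image_of_mem Pc hD))
    rw [h1]
    push_cast
    refine Finset.sum_le_sum fun P hP => ?_
    obtain ⟨D1, hD1, hD1P⟩ := Finset.mem_image.1 hP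
    have hPne : P.1 ≠ ⊥ := P.2.2
    have hI0 : P.1 ^ 2 * f ^ 2 ≠ ⊥ := mul_ne_zero (pow_ne_zero 2 hPne) (pow_ne_zero 2 hf)
    have hnmI : nm (P.1 ^ 2 * f ^ 2) = np P ^ 2 * nm f ^ 2 := by
      rw [nm_mul', sq, sq, nm_mul', nm_mul']
      show nm P.1 * nm P.1 * (nm f * nm f) = nm P.1 ^ 2 * nm f ^ 2
      ring
    have hnmf : 1 ≤ nm f := (hnm1 f hf).1
    have hnpP : 1 ≤ np P := (hnm1 P.1 hPne).1
    have hmemI : ∀ D ∈ s1, Pc D = P → D ∈ P.1 ^ 2 * f ^ 2 := by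
      intro D hD hDP
      have h2 := dis_mem _ _ (hPc2 D hD)
      rw [hDP, mul_pow] at h2
      exact h2
    obtain ⟨hfinI, hncI⟩ := hLCU (P.1 ^ 2 * f ^ 2) 0 B hI0 hB.le
    obtain ⟨N, hNdef⟩ : ∃ N, N = nm (P.1 ^ 2 * f ^ 2) := ⟨_, rfl⟩
    have hN1 : 1 ≤ N := by rw [hNdef]; exact (hnm1 _ hI0).1
    rw [← hNdef, ← hndef] at hncI
    rw [← hNdef] at hnmI
    have hsub : ((s1.filter (fun D => Pc D = P)).card : ℝ) ≤
        ({x : 𝓞 k | x ∈ P.1 ^ 2 * f ^ 2 ∧ ∀ v, |em x v - (0 : Pl k → ℝ) v| ≤ B}.ncard : ℝ) := by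
      rw [Set.ncard_eq_toFinset_card _ hfinI]
      norm_cast
      refine Finset.card_le_card fun D hD => ?_
      rw [Finset.mem_filter] at hD
      rw [Set.Finite.mem_toFinset]
      refine ⟨hmemI D hD.1 hD.2, fun v => ?_⟩
      rw [Pi.zero_apply, sub_zero]
      exact (hmem D).1 ((hmem1 D).1 hD.1).1 v
    have hNB : N ≤ B ^ n := by
      have h2 := hnmle (P.1 ^ 2 * f ^ 2) D1 (hmemI D1 hD1 hD1P)
        (hne0 D1 ((hmem1 D1).1 hD1).2.2)
      rw [← hNdef] at h2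
      refine h2.trans ?_
      have h3 : ∏ v : Pl k, |em D1 v| ≤ ∏ _v : Pl k, B :=
        Finset.prod_le_prod (fun v _ => abs_nonneg _)
          (fun v _ => (hmem D1).1 ((hmem1 D1).1 hD1).1 v)
      rw [Finset.prod_const, Finset.card_univ, hcard] at h3
      exact h3
    have hn0 : (n : ℝ) ≠ 0 := by exact_mod_cast hn.ne'
    have hN0 : 0 ≤ N := by linarith
    obtain ⟨r, hrdef⟩ : ∃ r, r = N ^ (1 / (n : ℝ)) := ⟨_, rfl⟩
    have hr0 : 0 < r := by rw [hrdef]; exact Real.rpow_pos_of_pos (by linarith) _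
    have hrn : r ^ n = N := by
      rw [hrdef, ← Real.rpow_natCast, ← Real.rpow_mul hN0, one_div, inv_mul_cancel₀ hn0,
        Real.rpow_one]
    have hrB : r ≤ B := by
      have h2 : r ^ n ≤ B ^ n := by rw [hrn]; exact hNB
      exact (pow_le_pow_iff_left₀ hr0.le hB.le hn.ne').1 h2
    rw [← hrdef] at hncI
    have h2 : 2 * B / r + 2 ≤ 4 * B / r := by
      rw [div_add' _ _ _ hr0.ne', div_le_div_iff_of_pos_right hr0]
      linarith
    have h3 : (2 * B / r + 2) ^ n ≤ (4 * B / r) ^ n :=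
      pow_le_pow_left₀ (by positivity) h2 n
    have h4 : (4 * B / r) ^ n = K0 * T ^ n * N⁻¹ := by
      rw [div_pow, hrn, hBdef, hK0def, div_pow, mul_pow, div_pow]
      field_simp
    have h5 : N⁻¹ ≤ (np P ^ 2)⁻¹ := by
      apply inv_anti₀ (by positivity)
      rw [hnmI]
      have : 1 ≤ nm f ^ 2 := one_le_pow₀ hnmf
      nlinarith [sq_nonneg (np P)]
    calc _ ≤ _ := hsub
      _ ≤ (2 * B / r + 2) ^ n := hncI
      _ ≤ K0 * T ^ n * N⁻¹ := by rw [← h4]; exact h3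
      _ ≤ K0 * T ^ n * (np P ^ 2)⁻¹ := mul_le_mul_of_nonneg_left h5 (by positivity)
  have hsmall := hR₀ R hR (s1.image Pc) (fun P hP => by
    obtain ⟨D, hD, rfl⟩ := Finset.mem_image.1 hP
    exact hPc1 D hD)
  rw [← Finset.mul_sum] at hcnt
  calc C1 * s1.card ≤ C1 * (K0 * T ^ n * (ε / (C1 * K0 + 1))) := by
        refine mul_le_mul_of_nonneg_left (hcnt.trans ?_) hC10
        exact mul_le_mul_of_nonneg_left hsmall (by positivity)
    _ = (C1 * K0 / (C1 * K0 + 1)) * (ε * T ^ n) := by ring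
    _ ≤ 1 * (ε * T ^ n) := by
        refine mul_le_mul_of_nonneg_right ?_ (by positivity)
        rw [div_le_one (by positivity)]
        linarith
    _ = ε * T ^ n := one_mul _

end Pool.Agent.H78.NVP_NFD
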